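import Mathlib
import Pool.Agent.Helper37.DG.Stmts
import Pool.Agent.Helper38.SO.Bon

set_option autoImplicit false

/-! Module SVB: bounds for one block of the sieve. -/

namespace Pool.Agent.Helper37.DG

open Finset
open scoped Classical
open Pool.Agent.Helper17.SO (bonA bonE bonA_eq bonA_even_ge bonA_even_le bonE_le)

theorem svb_prod (T : Finset ℕ) : ∏ l ∈ T, (1 / (l : ℝ)) = 1 / (pr T : ℝ) := by
  unfold pr
  rw [Finset.prod_div_distrib]
  push_cast
  simp

theorem svb_prod_neg (T : Finset ℕ) :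
    ∏ l ∈ T, (-(1 / (l : ℝ))) = (-1) ^ T.card * (1 / (pr T : ℝ)) := by
  rw [← svb_prod, ← Finset.prod_const, ← Finset.prod_mul_distrib]
  exact Finset.prod_congr rfl fun l _ => by ring

theorem svb_al (X : Finset ℕ) (b : ℕ) :
    ∑ T ∈ X.powerset, al b T / pr T = bonA (fun p => 1 / (p : ℝ)) X (2 * b) := by
  rw [← bonA_eq, Finset.sum_filter]
  refine Finset.sum_congr rfl fun T _ => ?_
  unfold al
  by_cases h : T.card ≤ 2 * b
  · rw [if_pos h, if_pos h, svb_prod_neg]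
    ring
  · rw [if_neg h, if_neg h]
    simp

theorem svb_be (X : Finset ℕ) (b : ℕ) :
    ∑ T ∈ X.powerset, be b T / pr T = bonE (fun p => 1 / (p : ℝ)) X (2 * b + 1) := by
  unfold bonE
  rw [Finset.powersetCard_eq_filter, Finset.sum_filter]
  refine Finset.sum_congr rfl fun T _ => ?_
  unfold be
  by_cases h : T.card = 2 * b + 1
  · rw [if_pos h, if_pos h, svb_prod]
  · rw [if_neg h, if_neg h]
    simp

theorem svb_pr_pos (X T : Finset ℕ) (hX : ∀ p ∈ X, 2 ≤ p) (hT : T ⊆ X) : 0 < (pr T : ℝ) := by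
  unfold pr
  have : 0 < ∏ p ∈ T, p := Finset.prod_pos fun p hp => by
    have := hX p (hT hp)
    omega
  exact_mod_cast this

theorem svb_union (X U : Finset ℕ) (hU : U ⊆ X) :
    ∑ T ∈ X.powerset.filter (fun T => U ⊆ T), 1 / (pr T : ℝ) =
      1 / (pr U : ℝ) * ∏ p ∈ X \ U, (1 + 1 / (p : ℝ)) := by
  rw [Finset.prod_one_add, Finset.mul_sum]
  symm
  refine Finset.sum_bij (fun T' _ => U ∪ T') ?_ ?_ ?_ ?_
  · intro T' hT'
    have h1 := Finset.mem_powerset.1 hT'
    refine Finset.mem_filter.2 ⟨Finset.mem_powerset.2 ?_, Finset.subset_union_left⟩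
    exact Finset.union_subset hU (h1.trans Finset.sdiff_subset)
  · intro T1 h1 T2 h2 h
    have h1' := Finset.mem_powerset.1 h1
    have h2' := Finset.mem_powerset.1 h2
    have e1 : (U ∪ T1) \ U = T1 := by
      rw [Finset.union_sdiff_left]
      exact Finset.sdiff_eq_self_of_disjoint
        ((Finset.disjoint_of_subset_left h1' Finset.sdiff_disjoint))
    have e2 : (U ∪ T2) \ U = T2 := by
      rw [Finset.union_sdiff_left]
      exact Finset.sdiff_eq_self_of_disjoint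
        ((Finset.disjoint_of_subset_left h2' Finset.sdiff_disjoint))
    have h' : U ∪ T1 = U ∪ T2 := h
    rw [← e1, ← e2, h']
  · intro T hT
    obtain ⟨h1, h2⟩ := Finset.mem_filter.1 hT
    have h1' := Finset.mem_powerset.1 h1
    refine ⟨T \ U, Finset.mem_powerset.2 (Finset.sdiff_subset_sdiff h1' (Finset.Subset.refl U)), ?_⟩
    exact Finset.union_sdiff_of_subset h2
  · intro T' hT'
    have h1 := Finset.mem_powerset.1 hT'
    have hd : Disjoint U T' :=
      (Finset.disjoint_of_subset_left h1 Finset.sdiff_disjoint).symm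
    rw [← svb_prod, ← svb_prod, Finset.prod_union hd]

theorem svb_bound (S : ℝ) (X U : Finset ℕ) (hX : ∀ p ∈ X, 2 ≤ p)
    (hS : ∑ p ∈ X, 1 / (p : ℝ) ≤ S) (hU : U ⊆ X) :
    ∑ T ∈ X.powerset.filter (fun T => U ⊆ T), 1 / (pr T : ℝ) ≤ Real.exp S / pr U := by
  rw [svb_union X U hU]
  have hp := svb_pr_pos X U hX hU
  have h1 : ∏ p ∈ X \ U, (1 + 1 / (p : ℝ)) ≤ Real.exp S := by
    have h2 : ∏ p ∈ X \ U, (1 + 1 / (p : ℝ)) ≤ ∏ p ∈ X \ U, Real.exp (1 / (p : ℝ)) := by
      refine Finset.prod_le_prod (fun p _ => by positivity) fun p _ => ?_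
      have := Real.add_one_le_exp (1 / (p : ℝ))
      linarith only [this]
    rw [← Real.exp_sum] at h2
    refine h2.trans (Real.exp_le_exp.2 (le_trans ?_ hS))
    exact Finset.sum_le_sum_of_subset_of_nonneg Finset.sdiff_subset fun p _ _ => by positivity
  have h3 := mul_le_mul_of_nonneg_left h1 (le_of_lt (one_div_pos.2 hp))
  refine h3.trans (le_of_eq ?_)
  ring

theorem svb_abs (S : ℝ) (X U : Finset ℕ) (hX : ∀ p ∈ X, 2 ≤ p)
    (hS : ∑ p ∈ X, 1 / (p : ℝ) ≤ S) (hU : U ⊆ X) (f : Finset ℕ → ℝ) (hf : ∀ T, |f T| ≤ 1) :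
    |∑ T ∈ X.powerset.filter (fun T => U ⊆ T), f T / pr T| ≤ Real.exp S / pr U := by
  refine le_trans ?_ (svb_bound S X U hX hS hU)
  refine (Finset.abs_sum_le_sum_abs _ _).trans (Finset.sum_le_sum fun T hT => ?_)
  have hT' := Finset.mem_powerset.1 (Finset.mem_filter.1 hT).1
  have hp := svb_pr_pos X T hX hT'
  rw [abs_div, abs_of_pos hp]
  exact div_le_div_of_nonneg_right (hf T) hp.le

theorem svb_al_abs (b : ℕ) (T : Finset ℕ) : |al b T| ≤ 1 := by
  unfold al
  split_ifs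
  · rw [abs_pow, abs_neg, abs_one, one_pow]
  · simp

theorem svb_be_abs (b : ℕ) (T : Finset ℕ) : |be b T| ≤ 1 := by
  unfold be
  split_ifs <;> simp

theorem st_SVB : ST_SVB := by
  intro S X b hS0 hX hS
  have hg : ∀ l ∈ X, 0 ≤ (fun p : ℕ => 1 / (p : ℝ)) l ∧ (fun p : ℕ => 1 / (p : ℝ)) l ≤ 1 := by
    intro l hl
    have h2 := hX l hl
    have h3 : (1 : ℝ) ≤ l := by exact_mod_cast (by omega : 1 ≤ l)
    refine ⟨by positivity, ?_⟩
    show 1 / (l : ℝ) ≤ 1
    rw [div_le_one (by linarith only [h3])]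
    exact h3
  have hE : bonE (fun p => 1 / (p : ℝ)) X (2 * b + 1) ≤
      S ^ (2 * b + 1) / ((2 * b + 1).factorial : ℝ) := by
    refine (bonE_le (fun p => 1 / (p : ℝ)) X (fun l hl => (hg l hl).1) (2 * b + 1)).trans ?_
    have h0 : 0 ≤ ∑ p ∈ X, 1 / (p : ℝ) := Finset.sum_nonneg fun p _ => by positivity
    exact div_le_div_of_nonneg_right (pow_le_pow_left₀ h0 hS _) (by positivity)
  refine ⟨?_, ?_, ?_, ?_, ?_⟩
  · rw [svb_al]
    exact bonA_even_ge (fun p => 1 / (p : ℝ)) X hg b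
  · rw [svb_al]
    have h := bonA_even_le (fun p => 1 / (p : ℝ)) X hg b
    refine h.trans ?_
    exact add_le_add le_rfl hE
  · rw [svb_be]
    exact Pool.Agent.Helper17.SO.bonE_nonneg _ _ _ fun l hl => (hg l hl).1
  · rw [svb_be]
    exact hE
  · intro U hU
    exact ⟨svb_abs S X U hX hS hU (al b) (svb_al_abs b),
      svb_abs S X U hX hS hU (be b) (svb_be_abs b)⟩

end Pool.Agent.Helper37.DG
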